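import Pool.Agent.H378.RS.Kr

/-!
# The Knörr-Robinson conjecture is decided by one residue class

`chi2 p G` (`Y63/KR/Levels.lean`), `numDefectZero p G` (`Y63/AWC/Defs.lean`), `KRC p G` and
`krDiff p G = k(G) - χ₂(G) - z_p(G)` (`R674/Ce/Fin.lean`) are the definitions of the library, as is
the wreath product `WrC q G` of `G` with a cyclic group of order `q` (`K1H2/KR/Grp.lean`). In
`Pool/Agent/H378/RS/Kr.lean`:

* `kr p G = k(G) - χ₂(G)` and `zz p G = z_p(G)`, as real numbers;
* `ClK X`: the class `X` contains, with `G`, all powers `G^n`, `n > 0`, and all wreath products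
  `G ≀ C_q`, `q` prime (`q = p` too);
* `Rc p q a r G`: the difference `krDiff p G` is an integer congruent to `r` modulo `q ^ a`;
* `Ag t u v`: `|u| ≤ t (1 + v)` and `v ≤ t (1 + |u|)`;
* `AgAt p X q a r n₀ x ε`: for the finite groups `G` in `X` with `n₀ ≤ |G| ≤ x` and difference
  congruent to `r` modulo `q ^ a`, the numbers `k(G) - χ₂(G)` and `z_p(G)` agree up to `x ^ ε`;
* `Apart p X q a n₀ u v`: there are `δ > 0` and `x₀` such that for all `x ≥ x₀` and all `r` a finite
  group `G` in `X` with `n₀ ≤ |G| ≤ x` and difference congruent to `r` modulo `q ^ a` has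
  `u(G) ≥ x ^ δ (1 + v(G))` and `v(G) ≥ 0`.

Idea of the proof. Let `l = k(G) - χ₂(G)` and `w = z_p(G)`; both are multiplicative, and for
`G ≀ C_s` they become `(l^s + c l)/s` and `(w^s + c w)/s`, `c = s² - 1` for `s ≠ p`, `c = -1` for
`s = p`. If `l ≠ w` then `l - w` is made prime to `q` by wreath products with `C_q`. For suitable
powers of `G` both numbers are Teichmüller representatives modulo `q ^ (a + 1)`, so that `G ≀ C_s`
multiplies both by `s`; then `G ≀ C_q` applies the map `x ↦ (x^q + c x)/q`, which takes all values
modulo `q ^ a` on the units (Hensel), and a suitable prime `s` (Dirichlet) gives every residue of the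
difference. The ratio of the two numbers and the order of the group are under control in all steps.
-/

set_option autoImplicit false

namespace Pool.Agent.Results.MP_b6945b_al.OneResidueClass

open Pool.Agent.H378.RS
open Pool.Agent.Y63.KR (KRC)

/-- **The Knörr-Robinson conjecture is decided by one residue class.** Let `p` and `q` be primes
(`q = p` is allowed), `a` and `n₀` natural numbers, `r` an integer, and `X` a class of groups closed
under powers and under wreath products with groups of prime order (for instance all groups).
1. All finite groups in `X` satisfy the Knörr-Robinson conjecture at `p` if and only if for every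
  `ε > 0` there are arbitrarily large `x` such that, for the finite groups `G` in `X` with
  `n₀ ≤ |G| ≤ x` for which the difference of the two sides is congruent to `r` modulo `q ^ a`, the
  two sides agree up to `x ^ ε`.
2. If `r` is not divisible by `q ^ a`, then they satisfy it if and only if for no finite group in `X`
  of order at least `n₀` the difference is congruent to `r` modulo `q ^ a`.
3. If some finite group in `X` does not satisfy it then `k(G) - χ₂(G)` exceeds `z_p(G)` by a positive
  power of `x` for groups of order at most `x` in all residue classes modulo `q ^ a`, for all large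
  `x`, or the same is true with the two numbers exchanged. -/
theorem result (p : ℕ) [Fact p.Prime] (X : ∀ (G : Type) [Group G], Prop) (hX : ClK X)
    {q : ℕ} (hq : q.Prime) (a n₀ : ℕ) :
    (∀ r : ℤ, (∀ (G : Type) [Group G] [Finite G], X G → KRC p G) ↔
      ∀ ε : ℝ, 0 < ε → ∀ x₀ : ℝ, ∃ x : ℝ, x₀ ≤ x ∧ AgAt p X q a r n₀ x ε) ∧
    (∀ r : ℤ, ¬ (q : ℤ) ^ a ∣ r → ((∀ (G : Type) [Group G] [Finite G], X G → KRC p G) ↔
      ∀ (G : Type) [Group G] [Finite G], X G → n₀ ≤ Nat.card G → ¬ Rc p q a r G)) ∧
    ((¬ ∀ (G : Type) [Group G] [Finite G], X G → KRC p G) →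
      Apart p X q a n₀ (fun G _ => kr p G) (fun G _ => zz p G) ∨
        Apart p X q a n₀ (fun G _ => zz p G) (fun G _ => kr p G)) ∧
    ClK (fun _ _ => True) :=
  ⟨fun r => hX.approx hq a n₀ r, fun _ hr => hX.forb hq a n₀ hr, hX.res hq a n₀, clK_all⟩

end Pool.Agent.Results.MP_b6945b_al.OneResidueClass
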