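import Pool.Agent.H373.KR.L9

/-!
# The Knörr-Robinson conjecture and perfect primitive groups
-/

set_option autoImplicit false

open scoped Classical

noncomputable section

namespace Pool.Agent.Results.MP_b6945b_al.PerfectPrimitiveGroups

open Pool.Agent.Y63.KR (KRC)
open Pool.Agent.Y63.AWC (numDefectZero)
open Pool.Agent.H373.KR (Primitive PrimAffine SoclePower)

theorem result (p : ℕ) [Fact p.Prime] :
    ((∀ (G : Type) [Group G] [Finite G], KRC p G) ↔
      ∀ (G : Type) [Group G] [Finite G], commutator G = ⊤ → Primitive G →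
        (∃ l : ℕ, l.Prime ∧ l ≠ p ∧ PrimAffine l G) → KRC p G) ∧
    (∀ (S : Type) [Group S] [Finite S] [IsSimpleGroup S], (∃ a b : S, a * b ≠ b * a) →
      numDefectZero p S ≠ 0 →
      ((∀ (G : Type) [Group G] [Finite G], KRC p G) ↔
        ∀ (G : Type) [Group G] [Finite G], commutator G = ⊤ → Primitive G → SoclePower S G →
          KRC p G)) ∧
    numDefectZero p (alternatingGroup (Fin 5)) ≠ 0 := by
  refine ⟨⟨fun h G _ _ _ _ _ => h G, fun h G _ _ => Pool.Agent.H373.KR.krc_all_affine p h G⟩,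
    fun S _ _ _ hS hz => ⟨fun h G _ _ _ _ _ => h G,
      fun h G _ _ => Pool.Agent.H373.KR.krc_all_socle' p S hS hz h G⟩,
    Pool.Agent.H373.KR.a5_ne p⟩

end Pool.Agent.Results.MP_b6945b_al.PerfectPrimitiveGroups
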